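import Pool.Agent.H609R3.NM.Fin

set_option autoImplicit false

/-!
# The size of the `n`th distinct Markoff number

Let `m_n` be the `n`th Markoff number (distinct numbers, in increasing order), let `C` be the limit
of `M(N) / (log N)²`, where `M(N)` is the number of Markoff triples up to `N`, and let
`A = exp (1 / √C)`. Unconditionally (without the uniqueness conjecture) `m_n A^(-√n)` is at least
`1/3 - o(1)`, and `log m_n = √n log A + O(n^(1/2 - 1/308))`. Moreover `m_n A^(-√n)` tends to `1/3`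
if and only if the number of Markoff triples up to `N` exceeds the number of Markoff numbers up to
`N` by `o(log N)`.
-/

namespace Pool.Agent.Results.MP_94ab62_nt.DistinctNumbers

open Filter Asymptotics Pool.Agent.H609R3.NM

/-- Markoff numbers: the entries of the solutions of `x² + y² + z² = 3 x y z` in positive
integers. -/
def IsMarkoff (m : ℕ) : Prop :=
  ∃ x y : ℕ, 0 < x ∧ 0 < y ∧ 0 < m ∧ x ^ 2 + y ^ 2 + m ^ 2 = 3 * x * y * m

/-- `m_n`, the `n`th Markoff number, `n ≥ 1` (the distinct Markoff numbers in increasing order) -/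
noncomputable def markoff (n : ℕ) : ℕ := Nat.nth IsMarkoff (n - 1)

/-- `M(N)`, the number of Markoff triples `x ≤ y ≤ z ≤ N` -/
def triples (N : ℕ) : ℕ :=
  ((Finset.Icc 1 N ×ˢ Finset.Icc 1 N ×ˢ Finset.Icc 1 N).filter
    (fun p : ℕ × ℕ × ℕ =>
      p.1 ≤ p.2.1 ∧ p.2.1 ≤ p.2.2 ∧
        p.1 ^ 2 + p.2.1 ^ 2 + p.2.2 ^ 2 = 3 * p.1 * p.2.1 * p.2.2)).card

/-- the number of Markoff numbers `m ≤ N` -/
noncomputable def numbers (N : ℕ) : ℕ := {m : ℕ | m ≤ N ∧ IsMarkoff m}.ncard

theorem numbers_eq (N : ℕ) : numbers N = Pool.Agent.H499R2.mkN N := by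
  classical
  unfold numbers Pool.Agent.H499R2.mkN
  rw [← Set.ncard_coe_finset]
  congr 1
  ext m
  simp only [Set.mem_ofPred_eq, Finset.coe_filter, Finset.mem_Icc]
  have h : IsMarkoff m ↔ 1 ≤ m ∧ Pool.Agent.H499R2.Mk m := P_iff
  rw [h]
  tauto

theorem result : ∃ C : ℝ, 0 < C ∧
    Tendsto (fun N : ℕ => (triples N : ℝ) / (Real.log N) ^ 2) atTop (nhds C) ∧
    (∀ ε : ℝ, 0 < ε → ∀ᶠ n : ℕ in atTop,
      1 / 3 - ε ≤ (markoff n : ℝ) / Real.exp (Real.sqrt n / Real.sqrt C)) ∧
    (∃ K : ℝ, ∀ n : ℕ, 1 ≤ n →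
      |Real.log (markoff n) - Real.sqrt n / Real.sqrt C| ≤ K * (n : ℝ) ^ (1 / 2 - 1 / 308 : ℝ)) ∧
    (Tendsto (fun n : ℕ => (markoff n : ℝ) / Real.exp (Real.sqrt n / Real.sqrt C)) atTop
        (nhds (1 / 3)) ↔
      (fun N : ℕ => (triples N : ℝ) - numbers N) =o[atTop] (fun N : ℕ => Real.log N)) := by
  obtain ⟨c, hc, h⟩ := tri_asymp
  have hR := R_small h
  have hE : ∀ᶠ n in atTop, 0 ≤ E n := Eventually.of_forall E_nonneg
  have hb := basic c
  have em : ∀ n, markoff n = mk n := fun _ => rfl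
  refine ⟨c, hc, tri_limit h, ?_, ?_, ?_⟩
  · intro ε hε
    have h1 := lower hc L_tendsto hE hR hb ε hε
    filter_upwards [h1] with n hn
    rw [em, ratio_eq hc]
    have h2 : -ε ≤ L n - Real.sqrt (n / c) := by linarith
    have h3 := Real.exp_le_exp.2 h2
    have h4 := Real.add_one_le_exp (-ε)
    linarith
  · obtain ⟨K0, hK0⟩ := E_upper
    obtain ⟨K', hK'⟩ := upper hc L_tendsto hR hb K0 (1 / 154) (by norm_num) (by norm_num) hK0
    have h1 := lower hc L_tendsto hE hR hb 1 one_pos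
    obtain ⟨n0, hn0⟩ := eventually_atTop.1 (h1.and hK')
    set f : ℕ → ℝ := fun n => |Real.log (markoff n) - Real.sqrt n / Real.sqrt c| with hf
    refine ⟨|K'| + 3 + ∑ i ∈ Finset.range n0, f i, ?_⟩
    intro n hn
    have hn' : (1 : ℝ) ≤ n := by exact_mod_cast hn
    have hpow : (1 : ℝ) ≤ (n : ℝ) ^ (1 / 2 - 1 / 308 : ℝ) :=
      Real.one_le_rpow hn' (by norm_num)
    have hS : 0 ≤ ∑ i ∈ Finset.range n0, f i := Finset.sum_nonneg fun i _ => abs_nonneg _
    rcases lt_or_ge n n0 with hlt | hge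
    · have h2 : f n ≤ ∑ i ∈ Finset.range n0, f i :=
        Finset.single_le_sum (f := f) (fun i _ => abs_nonneg _) (Finset.mem_range.2 hlt)
      have h3 : 0 ≤ |K'| := abs_nonneg _
      calc f n ≤ ∑ i ∈ Finset.range n0, f i := h2
        _ ≤ (|K'| + 3 + ∑ i ∈ Finset.range n0, f i) * 1 := by linarith
        _ ≤ _ := mul_le_mul_of_nonneg_left hpow (by positivity)
    · obtain ⟨h2, h3⟩ := hn0 n hge
      have e1 : Real.sqrt n / Real.sqrt c = Real.sqrt (n / c) := (Real.sqrt_div' _ hc.le).symm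
      have e2 : ((1 : ℝ) - 1 / 154) / 2 = 1 / 2 - 1 / 308 := by norm_num
      rw [e2] at h3
      have hm : (0 : ℝ) < mk n := by exact_mod_cast mk_pos n
      have e3 : L n = Real.log 3 + Real.log (mk n) := by
        unfold L
        rw [Real.log_mul (by norm_num) hm.ne']
      have h4 : 0 ≤ Real.log 3 := Real.log_nonneg (by norm_num)
      have h5 : Real.log 3 ≤ 2 := by
        rw [Real.log_le_iff_le_exp (by norm_num)]
        have := Real.add_one_le_exp (2 : ℝ)
        linarith
      have h6 : K' * (n : ℝ) ^ (1 / 2 - 1 / 308 : ℝ) ≤ |K'| * (n : ℝ) ^ (1 / 2 - 1 / 308 : ℝ) :=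
        mul_le_mul_of_nonneg_right (le_abs_self K') (by linarith)
      have h7 : 0 ≤ |K'| * (n : ℝ) ^ (1 / 2 - 1 / 308 : ℝ) := by positivity
      have h8 : 0 ≤ (∑ i ∈ Finset.range n0, f i) * (n : ℝ) ^ (1 / 2 - 1 / 308 : ℝ) := by positivity
      rw [em, e1, abs_le]
      constructor
      · nlinarith
      · nlinarith
  · have h1 : Tendsto (fun n : ℕ => (markoff n : ℝ) / Real.exp (Real.sqrt n / Real.sqrt c)) atTop
        (nhds (1 / 3)) ↔ Tendsto (fun n : ℕ => L n - Real.sqrt (n / c)) atTop (nhds 0) := by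
      have e1 : (fun n : ℕ => (markoff n : ℝ) / Real.exp (Real.sqrt n / Real.sqrt c)) =
          fun n : ℕ => 1 / 3 * Real.exp (L n - Real.sqrt (n / c)) := by
        funext n
        rw [em, ratio_eq hc]
      rw [e1]
      constructor
      · intro ht
        have h2 := (ht.const_mul 3)
        have h3 : Tendsto (fun n : ℕ => Real.exp (L n - Real.sqrt (n / c))) atTop (nhds 1) := by
          refine (h2.congr fun n => ?_).trans (le_of_eq ?_)
          · ring
          · norm_num
        have h4 := (Real.continuousAt_log (one_ne_zero)).tendsto.comp h3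
        rw [Real.log_one] at h4
        refine h4.congr fun n => ?_
        simp
      · intro ht
        have h2 := (Real.continuous_exp.tendsto 0).comp ht
        rw [Real.exp_zero] at h2
        have h3 := h2.const_mul (1 / 3 : ℝ)
        rw [mul_one] at h3
        exact h3
    rw [h1, equiv hc L_tendsto hR hb, E_iff]
    have e2 : (fun N : ℕ => (tri N : ℝ) - Pool.Agent.H499R2.mkN N) =
        fun N : ℕ => (triples N : ℝ) - numbers N := by
      funext N
      rw [numbers_eq]
      rfl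
    rw [e2]

end Pool.Agent.Results.MP_94ab62_nt.DistinctNumbers
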